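import Pool.Agent.H37.KL.Pw

/-!
# KL: part END
-/

set_option autoImplicit false

open Finset Module

namespace H37.KL

open H2.KL

/-- a value of `s` outside two small bad sets -/
theorem exists_out (I B1 B2 : Finset ℕ) (n1 n2 : ℕ) (h1 : B1.card ≤ n1) (h2 : B2.card ≤ n2)
    (h : n1 + n2 < I.card) : ∃ s ∈ I, s ∉ B1 ∧ s ∉ B2 := by
  classical
  by_contra hc
  push Not at hc
  have h3 : I ⊆ B1 ∪ B2 := by
    intro s hs
    rw [mem_union]
    by_cases h4 : s ∈ B1
    · exact Or.inl h4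
    · exact Or.inr (hc s hs h4)
  have h5 := Finset.card_le_card h3
  have h6 := Finset.card_union_le B1 B2
  omega

theorem modp_of {p N : ℕ} (hN : 1 ≤ N) {t s : ℕ} (h : (t : ZMod (p ^ N)) * s = 1) :
    t * s ≡ 1 [MOD p] := by
  have h1 : ((t * s : ℕ) : ZMod (p ^ N)) = ((1 : ℕ) : ZMod (p ^ N)) := by
    push_cast; exact h
  have h2 := (ZMod.natCast_eq_natCast_iff _ _ _).1 h1
  exact h2.of_dvd (dvd_pow_self p (by omega))

theorem t_END (hREP : S_REP) (hREP3 : S_REP3) (hPEN : S_PEN) (hDUAL : S_DUAL) (hPOL : S_POL) :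
    S_END := by
  classical
  intro p N hp G _ _ K _ k _ _ L hk a haI haA hnorm r e Good hre hep hG1 hst hgen hV0 hmax z hz hz0
  have hN : 1 ≤ N := by
    by_contra hc
    have h0 : N = 0 := by omega
    subst h0
    apply hz0
    have := hk z
    simpa using this
  have hnz : NeZero (p ^ N) := ⟨(pow_pos hp.out.pos _).ne'⟩
  have : Finite (k →+ ZMod (p ^ N)) := DFunLike.finite _
  -- minimal radical
  obtain ⟨u2, hu2⟩ := Finite.exists_min (fun φ : k →+ ZMod (p ^ N) => Nat.card (rad φ))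
  obtain ⟨E, hE⟩ := card_rad hPOL hk L.nil u2
  have hEmax : ∀ φ : k →+ ZMod (p ^ N), Nat.card k ≤ p ^ (2 * E) * Nat.card (rad φ) := by
    intro φ
    rw [hE]
    exact Nat.mul_le_mul_left _ (hu2 φ)
  have hppos : ∀ n, 0 < p ^ n := fun n => pow_pos hp.out.pos n
  -- `E ≤ e`
  have hEe : E ≤ e := by
    obtain ⟨V, i1, i2, i3, ρ, hirr, hV⟩ := hREP3 p N G K k L hk u2
    have h1 := hmax V ρ hirr
    rw [hE] at hV
    have h2 := Nat.le_of_mul_le_mul_right hV Nat.card_pos
    have h3 : p ^ (2 * E) ≤ p ^ (2 * e) := by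
      calc p ^ (2 * E) ≤ finrank ℂ V ^ 2 := h2
        _ ≤ (p ^ e) ^ 2 := Nat.pow_le_pow_left h1 2
        _ = p ^ (2 * e) := by rw [← pow_mul, mul_comm]
    have h4 := (Nat.pow_le_pow_iff_right hp.out.one_lt).1 h3
    omega
  obtain ⟨u1, hu1⟩ := hG1
  obtain ⟨φ1, hφ1⟩ := (hDUAL (p ^ N) k hk).2.2 a u1
  -- Step 1
  have hstep1 : ∃ u : k →+ ZMod (p ^ N), Good (u.comp a.subtype) ∧
      Nat.card k = p ^ (2 * E) * Nat.card (rad u) := by
    obtain ⟨B, hB, hB'⟩ := hgen u1 (u2.comp a.subtype) hu1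
    let S : Finset ℕ := (Ico 1 p).filter
      (fun s => Nat.card k < p ^ (2 * E) * Nat.card (rad (u2 + s • φ1)))
    have hinv : ∀ s ∈ Ico 1 p, ∃ t : ℕ, (t : ZMod (p ^ N)) * s = 1 := by
      intro s hs
      rw [Finset.mem_Ico] at hs
      exact exists_inv hs.1 hs.2
    choose! t ht using hinv
    have hSI : ∀ s ∈ S, s ∈ Ico 1 p := fun s hs => (Finset.mem_filter.1 hs).1
    have hcong : ∀ s ∈ S, ∀ s' ∈ S, t s ≡ t s' [MOD p] → s = s' := by
      intro s hs s' hs' h
      have h1 := modp_of hN (ht s (hSI s hs))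
      have h2 := modp_of hN (ht s' (hSI s' hs'))
      have h3 : s' ≡ s [MOD p] := by
        calc s' = 1 * s' := (one_mul _).symm
          _ ≡ (t s * s) * s' [MOD p] := (h1.symm).mul_right _
          _ = (t s * s') * s := by ring
          _ ≡ (t s' * s') * s [MOD p] := (h.mul_right _).mul_right _
          _ ≡ 1 * s [MOD p] := h2.mul_right _
          _ = s := one_mul _
      have h4 := Finset.mem_Ico.1 (hSI s hs)
      have h5 := Finset.mem_Ico.1 (hSI s' hs')
      exact (Nat.ModEq.eq_of_lt_of_lt h3 h5.2 h4.2).symm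
    have hT := hPEN p N k hk L.nil E hEmax φ1 u2 hE (S.image t) (by
      intro x hx y hy hne hc
      obtain ⟨s, hs, rfl⟩ := Finset.mem_image.1 hx
      obtain ⟨s', hs', rfl⟩ := Finset.mem_image.1 hy
      exact hne (by rw [hcong s hs s' hs' hc])) (by
      intro x hx
      obtain ⟨s, hs, rfl⟩ := Finset.mem_image.1 hx
      have h1 := (Finset.mem_filter.1 hs).2
      have h2 : φ1 + t s • u2 = t s • (u2 + s • φ1) := by
        have h3 : t s • s • φ1 = φ1 := by
          ext y
          simp only [AddMonoidHom.smul_apply, nsmul_eq_mul]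
          rw [← mul_assoc, ht s (hSI s hs), one_mul]
        rw [smul_add, h3, add_comm]
      rw [h2, rad_nsmul _ (ht s (hSI s hs))]
      exact h1)
    rw [Finset.card_image_of_injOn (by
      intro s hs s' hs' h
      exact hcong s hs s' hs' (by
        have h' : t s = t s' := h
        rw [h']))] at hT
    obtain ⟨s, hs, hsB, hsS⟩ := exists_out (Ico 1 p) B S r E hB hT (by
      rw [Nat.card_Ico]; omega)
    have hs' := Finset.mem_Ico.1 hs
    refine ⟨u2 + s • φ1, ?_, ?_⟩
    · have h1 := hB' s hs'.2 hsB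
      have h2 : (u2 + s • φ1).comp a.subtype = u2.comp a.subtype + s • u1 := by
        ext x
        simp only [AddMonoidHom.comp_apply, AddMonoidHom.add_apply, AddMonoidHom.smul_apply]
        have := hφ1 x
        change u2 x + s • φ1 x = u2 x + s • u1 x
        rw [this]
      rw [h2]
      exact h1
    · apply le_antisymm (hEmax _)
      by_contra hc
      exact hsS (Finset.mem_filter.2 ⟨hs, not_le.1 hc⟩)
  obtain ⟨u, hug, huE⟩ := hstep1
  -- Step 2
  have hstep2 : ∃ φ : k →+ ZMod (p ^ N), Good (φ.comp a.subtype) ∧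
      Nat.card k = p ^ (2 * E) * Nat.card (rad φ) ∧ φ z ≠ 0 := by
    by_cases huz : u z = 0
    · obtain ⟨ψ, hψ⟩ := (hDUAL (p ^ N) k hk).2.1 z hz0
      obtain ⟨B, hB, hB'⟩ := hgen (u.comp a.subtype) (ψ.comp a.subtype) hug
      let S : Finset ℕ := (range p).filter
        (fun s => Nat.card k < p ^ (2 * E) * Nat.card (rad (ψ + s • u)))
      have hS := hPEN p N k hk L.nil E hEmax ψ u huE S (by
        intro s hs s' hs' hne hc
        have h4 := Finset.mem_range.1 (Finset.mem_filter.1 hs).1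
        have h5 := Finset.mem_range.1 (Finset.mem_filter.1 hs').1
        exact hne (Nat.ModEq.eq_of_lt_of_lt hc h4 h5)) (fun s hs => (Finset.mem_filter.1 hs).2)
      obtain ⟨s, hs, hsB, hsS⟩ := exists_out (range p) B S r E hB hS (by
        rw [Finset.card_range]; omega)
      refine ⟨ψ + s • u, ?_, ?_, ?_⟩
      · have h1 := hB' s (Finset.mem_range.1 hs) hsB
        have h2 : (ψ + s • u).comp a.subtype = ψ.comp a.subtype + s • u.comp a.subtype := by
          ext x
          rfl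
        rw [h2]
        exact h1
      · apply le_antisymm (hEmax _)
        by_contra hc
        exact hsS (Finset.mem_filter.2 ⟨hs, not_le.1 hc⟩)
      · rw [AddMonoidHom.add_apply, AddMonoidHom.smul_apply, huz, smul_zero, add_zero]
        exact hψ
    · exact ⟨u, hug, huE, huz⟩
  obtain ⟨φ, hφg, hφE, hφz⟩ := hstep2
  -- Step 3
  have hR := hREP p N G K k L hk a haI haA hnorm
  obtain ⟨V, i1, i2, i3, ρ, hirr, hV, hVz⟩ := hR.2 φ (by
    intro g hg
    apply hst (φ.comp a.subtype) hφg g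
    intro x y hxy
    exact hg x x.2 y y.2 hxy)
  obtain ⟨V0, j1, j2, j3, ρ0, hirr0, hV0d⟩ := hV0
  obtain ⟨ψ, hψ⟩ := hR.1 V0 ρ0 hirr0
  refine ⟨V, i1, i2, i3, ρ, hirr, ?_, hVz z hz hφz⟩
  have h1 : K.index ^ 2 * p ^ (2 * E) ≤ finrank ℂ V ^ 2 := by
    rw [hφE, ← mul_assoc] at hV
    exact Nat.le_of_mul_le_mul_right hV Nat.card_pos
  have h2 : (p ^ e) ^ 2 ≤ K.index ^ 2 * p ^ (2 * E) := by
    rw [hV0d] at hψ
    have h3 : (p ^ e) ^ 2 * Nat.card (rad ψ) ≤ K.index ^ 2 * p ^ (2 * E) * Nat.card (rad ψ) := by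
      calc (p ^ e) ^ 2 * Nat.card (rad ψ) ≤ K.index ^ 2 * Nat.card k := hψ
        _ ≤ K.index ^ 2 * (p ^ (2 * E) * Nat.card (rad ψ)) := Nat.mul_le_mul_left _ (hEmax ψ)
        _ = _ := by ring
    exact Nat.le_of_mul_le_mul_right h3 Nat.card_pos
  have h3 : p ^ e ≤ finrank ℂ V := by
    have := h2.trans h1
    exact (Nat.pow_le_pow_iff_left (by norm_num)).1 this
  exact le_antisymm (hmax V ρ hirr) h3

end H37.KL
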