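import Pool.Agent.H2.KL.Stm

/-!
# KL, representation block: parts ORB and MACK
-/

set_option autoImplicit false

open Finset Module

namespace H37.KL

open H2.KL

theorem dual_finite {q : ℕ} [NeZero q] (B : Type) [AddCommGroup B] [Finite B] :
    Finite (B →+ ZMod q) := DFunLike.finite _

theorem t_ORB (hD : S_DUAL) : S_ORB := by
  classical
  intro q _ K _ _ k _ _ L hq φ h hP ψ hψ
  by_contra hc
  push Not at hc
  have : Finite (k →+ ZMod q) := DFunLike.finite _
  have : Fintype (k →+ ZMod q) := Fintype.ofFinite _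
  have : Fintype h := Fintype.ofFinite _
  -- the extensions of `φ|h`
  let X : Finset (k →+ ZMod q) := univ.filter (fun η => ∀ x ∈ h, η x = φ x)
  have hψX : ψ ∈ X := by simp only [X, mem_filter, mem_univ, true_and]; exact hψ
  -- their number
  have hqB : ∀ x : k ⧸ h, q • x = 0 := by
    intro x
    induction x using QuotientAddGroup.induction_on with
    | H z => rw [← QuotientAddGroup.mk_nsmul, hq z, QuotientAddGroup.mk_zero]
  have hB := (hD q (k ⧸ h) hqB).1
  have : Finite ((k ⧸ h) →+ ZMod q) := DFunLike.finite _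
  have : Fintype ((k ⧸ h) →+ ZMod q) := Fintype.ofFinite _
  have hXcard : X.card ≤ Nat.card (k ⧸ h) := by
    rw [← hB, Nat.card_eq_fintype_card, ← Finset.card_univ]
    have hle : ∀ η ∈ X, h ≤ (η - φ).ker := by
      intro η hη x hx
      simp only [X, mem_filter, mem_univ, true_and] at hη
      rw [AddMonoidHom.mem_ker, AddMonoidHom.sub_apply, hη x hx, sub_self]
    refine Finset.card_le_card_of_injOn
      (fun η => if hη : η ∈ X then QuotientAddGroup.lift h (η - φ) (hle η hη) else 0)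
      (fun _ _ => Finset.mem_coe.2 (mem_univ _)) ?_
    intro η hη η' hη' he
    simp only [Finset.mem_coe] at hη hη'
    simp only [hη, hη', dif_pos] at he
    ext x
    have := DFunLike.congr_fun he (x : k ⧸ h)
    simp only [QuotientAddGroup.lift_mk, AddMonoidHom.sub_apply] at this
    exact sub_left_injective this
  -- the orbit map
  let f : h → (k →+ ZMod q) := fun x => L.co φ (L.e x)
  have hfX : ∀ x : h, f x ∈ X.erase ψ := by
    intro x
    rw [Finset.mem_erase]
    constructor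
    · intro he
      obtain ⟨y, hy⟩ := hc x.1 x.2
      exact hy (by rw [← he]; rfl)
    · simp only [X, mem_filter, mem_univ, true_and]
      intro y hy
      have h1 := map_der hP.iso (L.Ad_sub_mem hP.sub x.2 hy)
      rw [map_sub, sub_eq_zero] at h1
      exact h1
  have hfib : ∀ a ∈ univ.image f, (univ.filter (fun x => f x = a)).card ≤ Nat.card (rad φ) := by
    intro a ha
    obtain ⟨x', -, hx'⟩ := Finset.mem_image.1 ha
    have : Fintype (rad φ) := Fintype.ofFinite _
    rw [Nat.card_eq_fintype_card, ← Finset.card_univ (α := rad φ)]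
    have hmem : ∀ x : h, f x = a → L.e.symm (L.e x * (L.e x')⁻¹) ∈ rad φ := by
      intro x hx
      rw [← L.stab_iff]
      intro y
      rw [Equiv.apply_symm_apply, L.Ad_mul]
      have h1 : f x (L.Ad (L.e x')⁻¹ y) = f x' (L.Ad (L.e x')⁻¹ y) := by rw [hx, hx']
      have h2 : f x' (L.Ad (L.e x')⁻¹ y) = φ y := by
        change φ (L.Ad (L.e x') (L.Ad (L.e x')⁻¹ y)) = φ y
        rw [L.Ad_Ad_inv]
      rw [h2] at h1
      exact h1
    refine Finset.card_le_card_of_injOn
      (fun x => if hx : f x = a then ⟨L.e.symm (L.e x * (L.e x')⁻¹), hmem x hx⟩ else 0)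
      (fun _ _ => Finset.mem_coe.2 (mem_univ _)) ?_
    intro x hx y hy he
    simp only [Finset.coe_filter, mem_univ, true_and, Set.mem_ofPred_eq] at hx hy
    simp only [hx, hy, dif_pos] at he
    have h1 := congrArg Subtype.val he
    simp only at h1
    have h2 := L.e.symm.injective h1
    have h3 := mul_right_cancel h2
    exact Subtype.ext (L.e.injective h3)
  have h1 := Finset.card_le_mul_card_image (s := (univ : Finset h)) (f := f)
    (Nat.card (rad φ)) hfib
  have h2 : (univ.image f).card ≤ (X.erase ψ).card := by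
    apply Finset.card_le_card
    intro a ha
    obtain ⟨x, -, hx⟩ := Finset.mem_image.1 ha
    rw [← hx]
    exact hfX x
  have h3 : (X.erase ψ).card + 1 = X.card := Finset.card_erase_add_one hψX
  have h4 : Nat.card h = (univ : Finset h).card := by
    rw [Nat.card_eq_fintype_card, Finset.card_univ]
  have h5 : Nat.card k = Nat.card (k ⧸ h) * Nat.card h :=
    AddSubgroup.card_eq_card_quotient_mul_card_addSubgroup h
  have h6 := hP.card
  have h7 : 0 < Nat.card h := Nat.card_pos
  have h8 : 0 < Nat.card (rad φ) := Nat.card_pos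
  rw [h5] at h6
  have h9 : Nat.card h = Nat.card (k ⧸ h) * Nat.card (rad φ) := by
    apply Nat.eq_of_mul_eq_mul_left h7
    calc Nat.card h * Nat.card h = Nat.card h ^ 2 := (sq _).symm
      _ = _ := by rw [h6]; ring
  have h10 : Nat.card h ≤ Nat.card (rad φ) * (X.erase ψ).card := by
    rw [h4]
    exact h1.trans (Nat.mul_le_mul_left _ h2)
  have h11 : Nat.card (rad φ) * X.card ≤ Nat.card h := by
    rw [h9, mul_comm (Nat.card (k ⧸ h))]
    exact Nat.mul_le_mul_left _ hXcard
  rw [← h3, mul_add, mul_one] at h11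
  omega

theorem t_MACK (hD : S_DUAL) (hO : S_ORB) : S_MACK := by
  classical
  intro q _ K _ _ k _ _ L hq φ h hP g hg
  -- the functional which extends `φ` on `h` and `φ ∘ Ad g` on `h'`
  let h' : AddSubgroup k := h.comap (L.Ad g)
  have hqB : ∀ x : k ⧸ h, q • x = 0 := by
    intro x
    induction x using QuotientAddGroup.induction_on with
    | H z => rw [← QuotientAddGroup.mk_nsmul, hq z, QuotientAddGroup.mk_zero]
  let mk : k →+ k ⧸ h := QuotientAddGroup.mk' h
  let δ : h' →+ ZMod q := (L.co φ g - φ).comp h'.subtype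
  have hker : (mk.addSubgroupMap h').ker ≤ δ.ker := by
    intro x hx
    rw [AddMonoidHom.mem_ker] at hx
    have h1 : mk x.1 = 0 := congrArg Subtype.val hx
    have h2 : x.1 ∈ h := (QuotientAddGroup.eq_zero_iff _).1 h1
    rw [AddMonoidHom.mem_ker]
    change φ (L.Ad g x.1) - φ x.1 = 0
    rw [hg x.1 h2 x.2, sub_self]
  let f : (h'.map mk) →+ ZMod q :=
    (mk.addSubgroupMap h').liftOfSurjective (mk.addSubgroupMap_surjective h') ⟨δ, hker⟩
  have hf : ∀ x : h', f (mk.addSubgroupMap h' x) = δ x := by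
    intro x
    exact AddMonoidHom.liftOfRightInverse_comp_apply _ _ _ ⟨δ, hker⟩ x
  obtain ⟨η, hη⟩ := (hD q (k ⧸ h) hqB).2.2 (h'.map mk) f
  let ψ : k →+ ZMod q := φ + η.comp mk
  have hψ1 : ∀ x ∈ h, ψ x = φ x := by
    intro x hx
    change φ x + η (mk x) = φ x
    have : mk x = 0 := (QuotientAddGroup.eq_zero_iff _).2 hx
    rw [this, map_zero, add_zero]
  have hψ2 : ∀ x ∈ h', ψ x = φ (L.Ad g x) := by
    intro x hx
    change φ x + η (mk x) = φ (L.Ad g x)
    have h1 := hη (mk.addSubgroupMap h' ⟨x, hx⟩)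
    rw [hf] at h1
    have h2 : ((mk.addSubgroupMap h' ⟨x, hx⟩ : h'.map mk) : k ⧸ h) = mk x := rfl
    rw [h2] at h1
    rw [h1]
    change φ x + (φ (L.Ad g x) - φ x) = φ (L.Ad g x)
    abel
  obtain ⟨x, hx, hx'⟩ := hO q K k L hq φ h hP ψ hψ1
  have hψ3 : ∀ y ∈ h, (ψ.comp (L.Ad g⁻¹)) y = φ y := by
    intro y hy
    change ψ (L.Ad g⁻¹ y) = φ y
    rw [hψ2, L.Ad_Ad_inv]
    change L.Ad g (L.Ad g⁻¹ y) ∈ h
    rw [L.Ad_Ad_inv]
    exact hy
  obtain ⟨y0, hy0, hy0'⟩ := hO q K k L hq φ h hP _ hψ3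
  have hstab : L.e.symm (L.e x * g⁻¹ * (L.e y0)⁻¹) ∈ rad φ := by
    rw [← L.stab_iff]
    intro y
    rw [Equiv.apply_symm_apply, L.Ad_mul, L.Ad_mul]
    have h1 := hy0' (L.Ad (L.e y0)⁻¹ y)
    rw [L.Ad_Ad_inv] at h1
    rw [← h1, ← hx']
    rfl
  have hu := hP.rad_le hstab
  have h1 : L.e x * g⁻¹ * (L.e y0)⁻¹ ∈ L.grp h hP.sub := by
    rw [L.mem_grp]; exact hu
  have h2 : L.e x ∈ L.grp h hP.sub := L.e_mem_grp.2 hx
  have h3 : L.e y0 ∈ L.grp h hP.sub := L.e_mem_grp.2 hy0
  have h4 : g ∈ L.grp h hP.sub := by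
    have h5 := (L.grp h hP.sub).mul_mem ((L.grp h hP.sub).mul_mem
      ((L.grp h hP.sub).inv_mem h2) h1) h3
    have h6 : (L.e x)⁻¹ * (L.e x * g⁻¹ * (L.e y0)⁻¹) * L.e y0 = g⁻¹ := by group
    rw [h6] at h5
    exact (Subgroup.inv_mem_iff _).1 h5
  exact h4

end H37.KL
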