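import Pool.Agent.H37.KL.Pw

/-!
# KL: part PEN
-/

set_option autoImplicit false

open Finset Module

namespace H37.KL

open H2.KL

/-- the form `φ ⁅x, y⁆` -/
noncomputable def form {q : ℕ} {k : Type} [LieRing k] (φ : k →+ ZMod q) : k →+ (k →+ ZMod q) where
  toFun x :=
    { toFun := fun y => φ ⁅x, y⁆
      map_zero' := by rw [lie_zero, map_zero]
      map_add' := fun y y' => by rw [lie_add, map_add] }
  map_zero' := by
    ext y
    change φ ⁅(0 : k), y⁆ = 0
    rw [zero_lie, map_zero]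
  map_add' x x' := by
    ext y
    change φ ⁅x + x', y⁆ = φ ⁅x, y⁆ + φ ⁅x', y⁆
    rw [add_lie, map_add]

theorem form_apply {q : ℕ} {k : Type} [LieRing k] (φ : k →+ ZMod q) (x y : k) :
    form φ x y = φ ⁅x, y⁆ := rfl

theorem ker_form {q : ℕ} {k : Type} [LieRing k] (φ : k →+ ZMod q) : (form φ).ker = rad φ := by
  ext x
  rw [AddMonoidHom.mem_ker, mem_rad, DFunLike.ext_iff]
  rfl

theorem ker_form_add {q : ℕ} {k : Type} [LieRing k] (φ0 φ1 : k →+ ZMod q) (s : ℕ) :
    (form φ0 + s • form φ1).ker = rad (φ0 + s • φ1) := by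
  ext x
  rw [AddMonoidHom.mem_ker, mem_rad, DFunLike.ext_iff]
  rfl

theorem t_PEN (hPOL : S_POL) (hMOM : S_MOM) : S_PEN := by
  classical
  intro p N hp k _ _ hk hnil E hmax φ0 φ1 hE S hS hbad
  rcases S.eq_empty_or_nonempty with h0 | h0
  · rw [h0]; simp
  have hnz : NeZero (p ^ N) := ⟨(pow_pos hp.out.pos _).ne'⟩
  have : Finite (k →+ ZMod (p ^ N)) := DFunLike.finite _
  have h1 := hMOM p N k (k →+ ZMod (p ^ N)) hk (form φ0) (form φ1) S h0 hS
  rw [ker_form] at h1
  have h2 : ∏ s ∈ S, Nat.card (form φ0 + s • form φ1).ker =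
      ∏ s ∈ S, Nat.card (rad (φ0 + s • φ1)) := by
    apply Finset.prod_congr rfl
    intro s _
    rw [ker_form_add]
  rw [h2] at h1
  set R := Nat.card (rad φ1) with hR
  have hRpos : 0 < R := Nat.card_pos
  have h3 : ∀ s ∈ S, p ^ 2 * R ≤ Nat.card (rad (φ0 + s • φ1)) := by
    intro s hs
    obtain ⟨c, hc⟩ := card_rad hPOL hk hnil (φ0 + s • φ1)
    have h4 := hbad s hs
    have hpos : 0 < Nat.card (rad (φ0 + s • φ1)) := Nat.card_pos
    have h5 : p ^ (2 * c) < p ^ (2 * E) := by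
      rw [hc] at h4
      exact Nat.lt_of_mul_lt_mul_right h4
    have h6 := (Nat.pow_lt_pow_iff_right hp.out.one_lt).1 h5
    have h7 : p ^ (2 * c) * Nat.card (rad (φ0 + s • φ1)) =
        p ^ (2 * c) * (p ^ (2 * (E - c)) * R) := by
      rw [← hc, hE, ← mul_assoc, ← pow_add]
      congr 2
      omega
    have h8 := Nat.eq_of_mul_eq_mul_left (pow_pos hp.out.pos _) h7
    rw [h8]
    apply Nat.mul_le_mul_right
    exact Nat.pow_le_pow_right hp.out.pos (by omega)
  have h4 : (p ^ 2 * R) ^ S.card ≤ ∏ s ∈ S, Nat.card (rad (φ0 + s • φ1)) := by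
    rw [← Finset.prod_const]
    exact Finset.prod_le_prod' h3
  have h5 : 1 ≤ S.card := Finset.card_pos.2 h0
  have h6 : Nat.card k * R ^ (S.card - 1) = p ^ (2 * E) * R ^ S.card := by
    rw [hE, mul_assoc, ← pow_succ', Nat.sub_add_cancel h5]
  rw [h6] at h1
  have h7 : (p ^ (2 * S.card)) * R ^ S.card ≤ p ^ (2 * E) * R ^ S.card := by
    calc (p ^ (2 * S.card)) * R ^ S.card = (p ^ 2 * R) ^ S.card := by
          rw [mul_pow, ← pow_mul]
      _ ≤ _ := h4.trans h1
  have h8 := Nat.le_of_mul_le_mul_right h7 (pow_pos hRpos _)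
  have h9 := (Nat.pow_le_pow_iff_right hp.out.one_lt).1 h8
  omega

end H37.KL
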