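import Pool.Agent.H2.KL.Stm

/-!
# KL, representation block: part SPAN
-/

set_option autoImplicit false

open Finset Module

set_option linter.unusedSectionVars false

namespace H37.KL

open H2.KL

section

variable {q : ℕ} [NeZero q] {K : Type} [Group K] [Finite K] {k : Type} [LieRing k] [Finite k]
  (L : LExp K k) {φ : k →+ ZMod q} {h : AddSubgroup k} {V : Type} [AddCommGroup V] [Module ℂ V]
  (ρ : Representation ℂ K V)

/-- the function `φ ∘ log` is additive on `exp h` -/
theorem phi_log (hs : IsSub h) (hiso : ∀ x ∈ h, ∀ y ∈ h, φ ⁅x, y⁆ = 0) {x y : k} (hx : x ∈ h)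
    (hy : y ∈ h) : φ (L.e.symm (L.e x * L.e y)) = φ x + φ y := by
  have h1 := map_der hiso (L.mul h hs x hx y hy)
  rw [map_sub, map_sub] at h1
  have h2 := sub_eq_zero.1 h1
  rw [sub_eq_iff_eq_add] at h2
  rw [h2, add_comm]

/-- right multiplication by `exp y` on `h` -/
noncomputable def rmul (hs : IsSub h) (y : h) : h ≃ h where
  toFun x := ⟨L.e.symm (L.e x * L.e y), L.log_mul_mem hs x.2 y.2⟩
  invFun x := ⟨L.e.symm (L.e x * L.e (-y.1)), L.log_mul_mem hs x.2 (neg_mem y.2)⟩
  left_inv x := by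
    apply Subtype.ext
    simp only [Equiv.apply_symm_apply, L.e_neg]
    rw [mul_assoc, mul_inv_cancel, mul_one, Equiv.symm_apply_apply]
  right_inv x := by
    apply Subtype.ext
    simp only [Equiv.apply_symm_apply, L.e_neg]
    rw [mul_assoc, inv_mul_cancel, mul_one, Equiv.symm_apply_apply]

/-- the projection (times `|h|`) -/
noncomputable def EE (φ : k →+ ZMod q) (h : AddSubgroup k) : V →ₗ[ℂ] V :=
  haveI : Fintype h := Fintype.ofFinite _
  ∑ x : h, (ZMod.stdAddChar (N := q) (-(φ x)) : ℂ) • ρ (L.e x)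

theorem EE_apply (w : V) : EE L ρ φ h w = (haveI : Fintype h := Fintype.ofFinite _
    ∑ x : h, (ZMod.stdAddChar (N := q) (-(φ x)) : ℂ) • ρ (L.e x) w) := by
  unfold EE
  simp only [LinearMap.coe_sum, Finset.sum_apply, LinearMap.smul_apply]

theorem EE_eig {w : V} (hw : EigV L ρ φ h w) : EE L ρ φ h w = (Nat.card h : ℂ) • w := by
  rw [EE_apply]
  let _ : Fintype h := Fintype.ofFinite _
  have : ∀ x : h, (ZMod.stdAddChar (N := q) (-(φ x)) : ℂ) • ρ (L.e x) w = w := by
    intro x
    rw [hw x x.2, smul_smul, ← AddChar.map_add_eq_mul, neg_add_cancel, AddChar.map_zero_eq_one,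
      one_smul]
  rw [Finset.sum_congr rfl fun x _ => this x, Finset.sum_const, Finset.card_univ,
    Nat.card_eq_fintype_card, ← Nat.cast_smul_eq_nsmul ℂ]

theorem EE_mul (hs : IsSub h) (hiso : ∀ x ∈ h, ∀ y ∈ h, φ ⁅x, y⁆ = 0) {y : k} (hy : y ∈ h)
    (w : V) : EE L ρ φ h (ρ (L.e y) w) =
      (ZMod.stdAddChar (N := q) (φ y) : ℂ) • EE L ρ φ h w := by
  rw [EE_apply, EE_apply]
  let _ : Fintype h := Fintype.ofFinite _
  rw [Finset.smul_sum]
  rw [← Equiv.sum_comp (rmul L hs ⟨y, hy⟩)
    (fun x : h => (ZMod.stdAddChar (N := q) (φ y) : ℂ) •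
      (ZMod.stdAddChar (N := q) (-(φ x)) : ℂ) • ρ (L.e x) w)]
  apply Finset.sum_congr rfl
  intro x _
  change _ = (ZMod.stdAddChar (N := q) (φ y) : ℂ) •
    (ZMod.stdAddChar (N := q) (-(φ (L.e.symm (L.e x * L.e y)))) : ℂ) •
      ρ (L.e (L.e.symm (L.e x * L.e y))) w
  rw [phi_log L hs hiso x.2 hy, Equiv.apply_symm_apply, smul_smul, ← AddChar.map_add_eq_mul,
    map_mul]
  have : φ y + -(φ x + φ y) = -(φ x) := by abel
  rw [this]
  rfl

theorem EE_zero (hM : S_MACK) (hq : ∀ x : k, q • x = 0) (hP : IsPol φ h) {w : V}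
    (hw : EigV L ρ φ h w) {g : K} (hg : L.e.symm g ∉ h) : EE L ρ φ h (ρ g w) = 0 := by
  have h1 : ¬ ∀ y ∈ h, L.Ad g⁻¹ y ∈ h → φ (L.Ad g⁻¹ y) = φ y := by
    intro hc
    have h2 := hM q K k L hq φ h hP g⁻¹ hc
    apply hg
    have h3 : g⁻¹ ∈ L.grp h hP.sub := h2
    exact (Subgroup.inv_mem_iff _).1 h3
  push Not at h1
  obtain ⟨y, hy, hy1, hy2⟩ := h1
  have h3 := EE_mul L ρ hP.sub hP.iso hy (ρ g w)
  have h4 : ρ (L.e y) (ρ g w) =
      (ZMod.stdAddChar (N := q) (φ (L.Ad g⁻¹ y)) : ℂ) • ρ g w := by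
    rw [← map_smul, ← hw _ hy1, L.e_Ad]
    rw [← Module.End.mul_apply, ← Module.End.mul_apply, ← map_mul, ← map_mul]
    congr 2
    group
  rw [h4, map_smul] at h3
  by_contra hne
  have h5 := smul_left_injective ℂ hne h3
  exact hy2 (ZMod.injective_stdAddChar h5)

end

theorem t_SPAN (hM : S_MACK) : S_SPAN := by
  classical
  intro q _ K _ _ k _ _ L hq φ h hP V _ _ _ ρ w hw0 hw
  let H : Subgroup K := L.grp h hP.sub
  have hHcard : Nat.card H = Nat.card h := by
    apply Nat.card_congr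
    exact {
      toFun := fun g => ⟨L.e.symm g.1, g.2⟩
      invFun := fun x => ⟨L.e x.1, L.e_mem_grp.2 x.2⟩
      left_inv := fun g => Subtype.ext (L.e.apply_symm_apply _)
      right_inv := fun x => Subtype.ext (L.e.symm_apply_apply _) }
  have hKcard : Nat.card K = Nat.card k := (Nat.card_congr L.e).symm
  let v : K ⧸ H → V := fun c => ρ c.out w
  have : Fintype (K ⧸ H) := Fintype.ofFinite _
  have hli : LinearIndependent ℂ v := by
    rw [Fintype.linearIndependent_iff]
    intro c hc j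
    have h1 : EE L ρ φ h (ρ (j.out)⁻¹ (∑ i, c i • v i)) = 0 := by rw [hc, map_zero, map_zero]
    rw [map_sum, map_sum] at h1
    rw [Finset.sum_eq_single j] at h1
    · rw [map_smul, map_smul] at h1
      have h2 : ρ (j.out)⁻¹ (v j) = w := by
        change ρ (j.out)⁻¹ (ρ j.out w) = w
        rw [← Module.End.mul_apply, ← map_mul, inv_mul_cancel, map_one]
        rfl
      rw [h2, EE_eig L ρ hw, smul_smul] at h1
      rcases smul_eq_zero.1 h1 with h3 | h3
      · rcases mul_eq_zero.1 h3 with h4 | h4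
        · exact h4
        · exfalso
          have h5 : Nat.card h = 0 := by exact_mod_cast h4
          have h6 : 0 < Nat.card h := Nat.card_pos
          omega
      · exact absurd h3 hw0
    · intro i _ hij
      rw [map_smul, map_smul]
      have h2 : ρ (j.out)⁻¹ (v i) = ρ ((j.out)⁻¹ * i.out) w := by
        rw [map_mul]
        rfl
      rw [h2, EE_zero L ρ hM hq hP hw, smul_zero]
      intro hmem
      apply hij
      have h3 : (j.out)⁻¹ * i.out ∈ H := hmem
      have h4 := QuotientGroup.eq.2 h3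
      rw [QuotientGroup.out_eq', QuotientGroup.out_eq'] at h4
      exact h4.symm
    · intro hj
      exact absurd (mem_univ j) hj
  have hspan : Submodule.span ℂ (Set.range fun g : K => ρ g w) =
      Submodule.span ℂ (Set.range v) := by
    apply le_antisymm
    · rw [Submodule.span_le]
      rintro _ ⟨g, rfl⟩
      obtain ⟨x, hx⟩ := QuotientGroup.mk_out_eq_mul H g
      -- `out = g * x`
      have h1 : g = (QuotientGroup.mk g : K ⧸ H).out * (x.1)⁻¹ := by
        rw [hx]; group
      have h2 : (x.1)⁻¹ ∈ H := H.inv_mem x.2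
      have h3 := hw _ (show L.e.symm (x.1)⁻¹ ∈ h from h2)
      rw [Equiv.apply_symm_apply] at h3
      change ρ g w ∈ _
      rw [h1, map_mul, Module.End.mul_apply, h3, map_smul]
      exact Submodule.smul_mem _ _ (Submodule.subset_span ⟨_, rfl⟩)
    · rw [Submodule.span_le]
      rintro _ ⟨c, rfl⟩
      exact Submodule.subset_span ⟨c.out, rfl⟩
  rw [hspan, finrank_span_eq_card hli, ← Nat.card_eq_fintype_card, ← hHcard,
    ← Subgroup.card_eq_card_quotient_mul_card_subgroup, hKcard]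

end H37.KL
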