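import Pool.Agent.H2.KL.Stm2

/-!
# KL: `|k| / |rad φ|` is a power of `p ^ 2`; radicals of multiples
-/

set_option autoImplicit false

open Finset Module

namespace H37.KL

open H2.KL

theorem card_pgrp {p N : ℕ} [hp : Fact p.Prime] {k : Type} [AddCommGroup k] [Finite k]
    (hk : ∀ x : k, (p ^ N) • x = 0) : ∃ m, Nat.card k = p ^ m := by
  refine ⟨_, Nat.eq_prime_pow_of_unique_prime_dvd (Nat.card_pos (α := k)).ne' ?_⟩
  intro d hd hdvd
  have : Fact d.Prime := ⟨hd⟩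
  obtain ⟨x, hx⟩ := exists_prime_addOrderOf_dvd_card' d hdvd
  have h1 : addOrderOf x ∣ p ^ N := addOrderOf_dvd_of_nsmul_eq_zero (hk x)
  rw [hx] at h1
  exact (Nat.prime_dvd_prime_iff_eq hd hp.out).1 (hd.dvd_of_dvd_pow h1)

theorem card_rad (hPOL : S_POL) {p N : ℕ} [hp : Fact p.Prime] {k : Type} [LieRing k] [Finite k]
    (hk : ∀ x : k, (p ^ N) • x = 0) (hnil : ∃ n, lcs k n = ⊥) (φ : k →+ ZMod (p ^ N)) :
    ∃ c, Nat.card k = p ^ (2 * c) * Nat.card (rad φ) := by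
  obtain ⟨h, hP, -⟩ := hPOL p N k hk hnil ⊥
    (fun x y hy => by rw [AddSubgroup.mem_bot] at hy ⊢; rw [hy, lie_zero])
    (fun x hx y hy => by rw [AddSubgroup.mem_bot] at hx; rw [hx, zero_lie]) φ
  have h1 : Nat.card (rad φ) * (rad φ).relIndex h = Nat.card h := by
    rw [← AddSubgroup.relIndex_bot_left, ← AddSubgroup.relIndex_bot_left h]
    exact AddSubgroup.relIndex_mul_relIndex _ _ _ bot_le hP.rad_le
  obtain ⟨m, hm⟩ := card_pgrp hk
  have h2 : (rad φ).relIndex h ∣ p ^ m := by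
    rw [← hm]
    exact (Dvd.intro_left _ h1).trans (AddSubgroup.card_addSubgroup_dvd_card h)
  obtain ⟨c, -, hc⟩ := (Nat.dvd_prime_pow hp.out).1 h2
  refine ⟨c, ?_⟩
  have h3 := hP.card
  rw [← h1, hc] at h3
  have h4 : 0 < Nat.card (rad φ) := Nat.card_pos
  apply Nat.eq_of_mul_eq_mul_right h4
  rw [← h3]
  ring

/-- multiplication by a unit does not change the radical -/
theorem rad_nsmul {q : ℕ} {k : Type} [LieRing k] (φ : k →+ ZMod q) {t s : ℕ}
    (h : ((t : ZMod q)) * s = 1) : rad (t • φ) = rad φ := by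
  ext x
  rw [mem_rad, mem_rad]
  constructor
  · intro h1 y
    have h2 := h1 y
    rw [AddMonoidHom.smul_apply, nsmul_eq_mul] at h2
    have h3 : (s : ZMod q) * ((t : ZMod q) * φ ⁅x, y⁆) = 0 := by rw [h2, mul_zero]
    rwa [← mul_assoc, mul_comm (s : ZMod q), h, one_mul] at h3
  · intro h1 y
    rw [AddMonoidHom.smul_apply, h1 y, smul_zero]

/-- inverses modulo `p ^ N` -/
theorem exists_inv {p N : ℕ} [hp : Fact p.Prime] {s : ℕ} (h1 : 1 ≤ s) (h2 : s < p) :
    ∃ t : ℕ, (t : ZMod (p ^ N)) * s = 1 := by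
  have hpos : 0 < p ^ N := pow_pos hp.out.pos _
  have : NeZero (p ^ N) := ⟨hpos.ne'⟩
  have hcop : Nat.Coprime s (p ^ N) := by
    apply Nat.Coprime.pow_right
    rw [Nat.coprime_comm, Nat.Prime.coprime_iff_not_dvd hp.out]
    intro hd
    have := Nat.le_of_dvd (by omega) hd
    omega
  refine ⟨((s : ZMod (p ^ N))⁻¹).val, ?_⟩
  rw [ZMod.natCast_zmod_val, mul_comm]
  exact ZMod.coe_mul_inv_eq_one s hcop

end H37.KL
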